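import Pool.Agent.P.MP_c3beeb_co.Squares

set_option autoImplicit false

namespace Pool.Agent.Results.MP_c3beeb_co.NoFiniteFamilyDeg4

open Pool.Agent.P.MP_c3beeb_co

theorem result : ¬ ∃ 𝓕 : Set (Σ k : ℕ, SimpleGraph (Fin k)), 𝓕.Finite ∧
    ∀ (n : ℕ) (G : SimpleGraph (Fin n)), (∀ v, (G.neighborSet v).ncard ≤ 4) → TwoPage G →
      (Representable G.lineGraph ↔ ∀ F ∈ 𝓕, ¬ F.2.IsContained G) :=
  Pool.Agent.P.MP_c3beeb_co.Deg4.main

/-- the question as posed: no finite family works for all graphs -/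
theorem all_graphs : ¬ ∃ 𝓕 : Set (Σ k : ℕ, SimpleGraph (Fin k)), 𝓕.Finite ∧
    ∀ (n : ℕ) (G : SimpleGraph (Fin n)),
      Representable G.lineGraph ↔ ∀ F ∈ 𝓕, ¬ F.2.IsContained G :=
  fun ⟨𝓕, hf, h⟩ => result ⟨𝓕, hf, fun n G _ _ => h n G⟩

end Pool.Agent.Results.MP_c3beeb_co.NoFiniteFamilyDeg4
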