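import Pool.Agent.P.MP_c3beeb_co.MnpCone

set_option autoImplicit false

namespace Pool.Agent.Results.MP_c3beeb_co.NotMonadicNP

open Pool.Agent.P.MP_c3beeb_co

theorem result : ¬ ∃ (k : ℕ) (φ : (Lang k).Sentence), ∀ (n : ℕ) (G : SimpleGraph (Fin n)),
    (∃ h, ∀ v, v ≠ h → G.Adj h v) →
      (Representable G.lineGraph ↔ ∃ X : Fin k → Set (Fin n), Holds G X φ) :=
  Pool.Agent.P.MP_c3beeb_co.Mnp.main

/-- the logic expresses forbidden subgraphs: a finite family gives a sentence -/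
theorem free_sentence {𝓕 : Set (Σ k : ℕ, SimpleGraph (Fin k))} (h : 𝓕.Finite) :
    ∃ φ : (Lang 0).Sentence, ∀ (n : ℕ) (G : SimpleGraph (Fin n)) (X : Fin 0 → Set (Fin n)),
      Holds G X φ ↔ ∀ F ∈ 𝓕, ¬ F.2.IsContained G := by
  obtain ⟨φ, hφ⟩ := Mnp.free_sentence h
  exact ⟨φ, fun _ G X => hφ G X⟩

/-- the vertex sets matter: the logic expresses being two-colourable -/
theorem colour_sentence : ∃ φ : (Lang 1).Sentence, ∀ (n : ℕ) (G : SimpleGraph (Fin n)),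
    (∃ X : Fin 1 → Set (Fin n), Holds G X φ) ↔ G.Colorable 2 := by
  obtain ⟨φ, hφ⟩ := Mnp.colour_sentence
  exact ⟨φ, fun _ G => hφ G⟩

/-- the question as posed: no finite family works for all graphs -/
theorem all_graphs : ¬ ∃ 𝓕 : Set (Σ k : ℕ, SimpleGraph (Fin k)), 𝓕.Finite ∧
    ∀ (n : ℕ) (G : SimpleGraph (Fin n)),
      Representable G.lineGraph ↔ ∀ F ∈ 𝓕, ¬ F.2.IsContained G := by
  rintro ⟨𝓕, hf, h⟩
  obtain ⟨φ, hφ⟩ := free_sentence hf
  refine result ⟨0, φ, fun n G _ => (h n G).trans ⟨fun h1 => ⟨default, (hφ n G _).2 h1⟩, ?_⟩⟩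
  rintro ⟨X, hX⟩
  exact (hφ n G X).1 hX

end Pool.Agent.Results.MP_c3beeb_co.NotMonadicNP
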